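import Mathlib
import Pool.Agent.MP_ce1e3b_an.Cl.Pos

/-- For every totally disconnected compact Hausdorff space `K` and every `n`, the norm attaining
real `n`-linear forms on `C(K)` are dense among all bounded `n`-linear forms. -/
theorem Pool.Agent.Results.MP_ce1e3b_an.DenseTotDisc.result (n : ℕ) (K : Type*)
    [TopologicalSpace K] [CompactSpace K] [T2Space K] [TotallyDisconnectedSpace K]
    (A : ContinuousMultilinearMap ℝ (fun _ : Fin n => ContinuousMap K ℝ) ℝ) (ε : ℝ) (hε : 0 < ε) :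
    ∃ B : ContinuousMultilinearMap ℝ (fun _ : Fin n => ContinuousMap K ℝ) ℝ,
      (∃ f : Fin n → ContinuousMap K ℝ, (∀ i, ‖f i‖ ≤ 1) ∧ |B f| = ‖B‖) ∧ ‖A - B‖ < ε := by
  rcases n with _ | n
  · refine ⟨A, ⟨0, by simp, ContinuousMultilinearMap.fin0_apply_norm A⟩, ?_⟩
    rwa [sub_self, ContinuousMultilinearMap.opNorm_zero]
  · exact (Pool.Agent.MP_ce1e3b_an.Cl.dense_iff_norm _).1
      Pool.Agent.MP_ce1e3b_an.Cl.dense_attaining A ε hε
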