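import Mathlib
import Pool.Agent.MP_ce1e3b_an.Final

/-- There are a compact Hausdorff space `K` and a bounded real 3-linear form `A` on `C(K)` at
positive distance, in the operator norm, from all norm attaining 3-linear forms on `C(K)`. -/
theorem Pool.Agent.Results.MP_ce1e3b_an.NotDense.result :
    ∃ (K : Type) (_ : TopologicalSpace K) (_ : CompactSpace K) (_ : T2Space K),
      ∃ A : ContinuousMultilinearMap ℝ (fun _ : Fin 3 => ContinuousMap K ℝ) ℝ, ∃ ε : ℝ, 0 < ε ∧
        ∀ B : ContinuousMultilinearMap ℝ (fun _ : Fin 3 => ContinuousMap K ℝ) ℝ,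
          (∃ f : Fin 3 → ContinuousMap K ℝ, (∀ i, ‖f i‖ ≤ 1) ∧ |B f| = ‖B‖) → ε ≤ ‖B - A‖ :=
  Pool.Agent.MP_ce1e3b_an.not_approx
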